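import Mathlib
import Pool.Agent.V11105.EgyptProd

namespace Pool.Agent.Results.MP_15ce38_nt.MaximalProduct

open Finset Pool.Agent.V11105.EP

/-- The `j`-th elementary symmetric function `σ_j(x_1, …, x_n)`. -/
def sigma {n : ℕ} (j : ℕ) (x : Fin n → ℕ) : ℕ :=
  ∑ s ∈ powersetCard j (univ : Finset (Fin n)), ∏ i ∈ s, x i

/-- `v` is the sequence `v_1 = 1`, `v_2 = 2`,
`v_{n+1} = 1 + (∑_{1≤i≤n} 1/v_i) / (1 - ∑_{1≤i<j≤n} 1/(v_i v_j))` for `n ≥ 2`. -/
def IsV (v : ℕ → ℝ) : Prop :=
  v 1 = 1 ∧ v 2 = 2 ∧ ∀ n : ℕ, 2 ≤ n →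
    v (n + 1) = 1 + (∑ i ∈ Icc 1 n, 1 / v i) /
      (1 - ∑ j ∈ Icc 1 n, ∑ i ∈ Ico 1 j, 1 / (v i * v j))

lemma exists_min {n : ℕ} (hn : 3 ≤ n) {y : ℕ → ℝ} (hy : y ∈ W n) :
    ∃ z ∈ W n, P z n ≤ P y n ∧ ∀ k, 1 ≤ k → k < n → P z k + E z k = 1 := by
  obtain ⟨z, hz, hmin⟩ := (isCompact_W n).exists_isMinOn ⟨y, hy⟩ (cont_P n).continuousOn
  refine ⟨z, hz, hmin hy, ?_⟩
  intro k hk1 hkn
  by_contra hne
  have hlt : P z k + E z k < 1 := lt_of_le_of_ne (hz.2.2.2 k hk1 hkn) hne
  obtain ⟨y', hy', hlt'⟩ := improve hn hz ⟨k, hk1, hkn, hlt⟩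
  have := hmin hy'
  simp only [Set.mem_ofPred_eq] at this
  linarith

lemma tight_val {n : ℕ} (hn : 3 ≤ n) {z : ℕ → ℝ} (hz : z ∈ W n)
    (ht : ∀ k, 1 ≤ k → k < n → P z k + E z k = 1) (w : ℕ → ℝ)
    (hw : ∀ k, w k = 1 + P w k * S (fun i => 1 / w i) k) :
    P z n * (P w (n-1) * (w (n-1) - 1)) = 1 := by
  have ht' : ∀ k, k < n → P z k + E z k = 1 := by
    intro k hk
    rcases Nat.eq_zero_or_pos k with h | h
    · subst h; rw [P_zero, E_zero]; norm_num
    · exact ht k h hk
  have key : ∀ k, k ≤ n - 1 → P z k * P w k = 1 ∧ S z k = S (fun i => 1 / w i) k := by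
    intro k
    induction k with
    | zero => intro _; rw [P_zero, P_zero, S_zero, S_zero]; norm_num
    | succ k ih =>
      intro hk
      obtain ⟨h1, h2⟩ := ih (by omega)
      have hPpos : 0 < P z k := prod_pos (fun i hi => y_pos hz (by rw [mem_range] at hi; omega))
      have hS := S_nonneg hz k
      have e1 := ht' k (by omega)
      have e2 := ht' (k+1) (by omega)
      rw [P_succ, E_succ] at e2
      have e3 : z k * (P z k + S z k) = P z k := by linarith
      have hwk : w k * z k = 1 := by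
        rw [hw k, ← h2]
        have h4 : (P z k + S z k) ≠ 0 := by positivity
        have h5 : P w k = 1 / P z k := by field_simp; linarith
        rw [h5]
        have h6 : z k = P z k / (P z k + S z k) := by field_simp; linarith
        rw [h6]
        field_simp
      have hwne : w k ≠ 0 := by
        intro h0; rw [h0] at hwk; norm_num at hwk
      constructor
      · rw [P_succ, P_succ]
        calc P z k * z k * (P w k * w k) = (P z k * P w k) * (w k * z k) := by ring
          _ = 1 := by rw [h1, hwk]; norm_num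
      · rw [S_succ, S_succ, h2]
        congr 1
        field_simp
        linarith
  obtain ⟨h1, h2⟩ := key (n-1) le_rfl
  have e1 := ht' (n-1) (by omega)
  have e2 : E z n = 1 := hz.2.2.1
  have e3 : E z (n-1+1) = E z (n-1) + z (n-1) * S z (n-1) := E_succ z (n-1)
  have e4 : P z (n-1+1) = P z (n-1) * z (n-1) := P_succ z (n-1)
  rw [show n-1+1 = n by omega] at e3 e4
  have e5 : z (n-1) * S z (n-1) = P z (n-1) := by linarith
  rw [hw (n-1), e4, ← h2]
  calc P z (n-1) * z (n-1) * (P w (n-1) * (1 + P w (n-1) * S z (n-1) - 1))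
      = (P z (n-1) * P w (n-1)) * P w (n-1) * (z (n-1) * S z (n-1)) := by ring
    _ = 1 * P w (n-1) * P z (n-1) := by rw [e5, h1]
    _ = P z (n-1) * P w (n-1) := by ring
    _ = 1 := h1

lemma e2_formula {ι : Type*} [DecidableEq ι] (s : Finset ι) (f : ι → ℝ) :
    ∑ t ∈ powersetCard 2 s, ∏ i ∈ t, f i = ((∑ i ∈ s, f i)^2 - ∑ i ∈ s, (f i)^2)/2 := by
  induction s using Finset.induction_on with
  | empty =>
    have : powersetCard 2 (∅ : Finset ι) = ∅ := by
      rw [powersetCard_eq_empty]; simp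
    rw [this]; simp
  | insert a s ha ih =>
    rw [powersetCard_succ_insert ha, sum_union, ih, sum_image, sum_insert ha, sum_insert ha]
    · have : ∑ x ∈ powersetCard 1 s, ∏ i ∈ insert a x, f i = f a * ∑ i ∈ s, f i := by
        rw [powersetCard_one, sum_map, mul_sum]
        refine sum_congr rfl (fun i hi => ?_)
        have hne : a ∉ ({i} : Finset ι) := by
          rw [mem_singleton]; rintro rfl; exact ha hi
        simp only [Function.Embedding.coeFn_mk]
        rw [prod_insert hne, prod_singleton]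
      rw [this]; ring
    · intro t ht t' ht' heq
      have h1 : a ∉ t := fun h => ha ((mem_powersetCard.mp ht).1 h)
      have h2 : a ∉ t' := fun h => ha ((mem_powersetCard.mp ht').1 h)
      rw [← erase_insert h1, ← erase_insert h2]
      have heq' : insert a t = insert a t' := heq
      rw [heq']
    · rw [disjoint_left]
      intro t ht ht'
      rw [mem_image] at ht'
      obtain ⟨u, _, rfl⟩ := ht'
      exact ha ((mem_powersetCard.mp ht).1 (mem_insert_self a u))

lemma sigma_compl {n : ℕ} (hn : 2 ≤ n) (x : Fin n → ℕ) (hx : ∀ i, 0 < x i)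
    (hs : sigma (n-2) x = sigma n x) :
    ∑ t ∈ powersetCard 2 (univ : Finset (Fin n)), ∏ i ∈ t, (1 / (x i : ℝ)) = 1 := by
  have h1 : sigma n x = ∏ i, x i := by
    unfold sigma
    have : powersetCard n (univ : Finset (Fin n)) = {univ} := by
      have := powersetCard_self (univ : Finset (Fin n))
      rwa [card_univ, Fintype.card_fin] at this
    rw [this, sum_singleton]
  have h2 : sigma (n-2) x = ∑ t ∈ powersetCard 2 (univ : Finset (Fin n)), ∏ i ∈ tᶜ, x i := by
    unfold sigma
    refine sum_nbij' (fun s => sᶜ) (fun s => sᶜ) ?_ ?_ ?_ ?_ ?_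
    · intro s hs
      rw [mem_powersetCard] at hs ⊢
      refine ⟨subset_univ _, ?_⟩
      rw [card_compl, Fintype.card_fin, hs.2]; omega
    · intro s hs
      rw [mem_powersetCard] at hs ⊢
      refine ⟨subset_univ _, ?_⟩
      rw [card_compl, Fintype.card_fin, hs.2]
    · intro s _; exact compl_compl s
    · intro s _; exact compl_compl s
    · intro s _; rw [compl_compl]
  have hXpos : (0:ℝ) < ∏ i, (x i : ℝ) := prod_pos (fun i _ => by exact_mod_cast hx i)
  have h3 : ∀ t : Finset (Fin n), ∏ i ∈ tᶜ, (x i : ℝ) = (∏ i, (x i : ℝ)) * ∏ i ∈ t, (1 / (x i : ℝ)) := by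
    intro t
    rw [← prod_compl_mul_prod t (fun i => (x i : ℝ)), mul_assoc, ← prod_mul_distrib]
    have : ∏ i ∈ t, ((x i : ℝ) * (1 / (x i : ℝ))) = 1 := by
      refine prod_eq_one (fun i _ => ?_)
      have : (x i : ℝ) ≠ 0 := by exact_mod_cast (hx i).ne'
      field_simp
    rw [this, mul_one]
  have h4 : ((sigma (n-2) x : ℕ) : ℝ) = (∏ i, (x i : ℝ)) *
      ∑ t ∈ powersetCard 2 (univ : Finset (Fin n)), ∏ i ∈ t, (1 / (x i : ℝ)) := by
    rw [h2, mul_sum]
    push_cast
    exact sum_congr rfl (fun t _ => h3 t)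
  rw [hs, h1] at h4
  push_cast at h4
  have h5 : (∏ i, (x i : ℝ)) * (∑ t ∈ powersetCard 2 (univ : Finset (Fin n)), ∏ i ∈ t, (1 / (x i : ℝ)))
      = (∏ i, (x i : ℝ)) * 1 := by rw [← h4, mul_one]
  exact mul_left_cancel₀ hXpos.ne' h5

/-- reciprocals of the tuple, extended by `0` -/
noncomputable def yy {n : ℕ} (x : Fin n → ℕ) : ℕ → ℝ := fun i => if h : i < n then 1 / (x ⟨i, h⟩ : ℝ) else 0

lemma yy_mem {n : ℕ} (hn : 2 ≤ n) (x : Fin n → ℕ) (hx : ∀ i, 0 < x i) (hmono : Monotone x)
    (hs : sigma (n-2) x = sigma n x) : yy x ∈ W n := by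
  have hnn : ∀ i, 0 ≤ yy x i := by
    intro i; unfold yy; split_ifs <;> positivity
  have hpos : ∀ i, i < n → 0 < yy x i := by
    intro i hi; unfold yy; rw [dif_pos hi]
    have := hx ⟨i, hi⟩
    positivity
  have hSnn : ∀ k, 0 ≤ S (yy x) k := fun k => sum_nonneg (fun i _ => hnn i)
  have hEm : Monotone (E (yy x)) := monotone_nat_of_le_succ (fun k => by
    rw [E_succ]
    have := mul_nonneg (hnn k) (hSnn k)
    linarith)
  have hEn : E (yy x) n = 1 := by
    have h := sigma_compl hn x hx hs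
    rw [e2_formula] at h
    unfold E S Q
    rw [sum_range, sum_range]
    have e : ∀ i : Fin n, yy x (i : ℕ) = 1 / (x i : ℝ) := by
      intro i; unfold yy; rw [dif_pos i.2]
    simp only [e]
    exact h
  refine ⟨?_, ?_, hEn, ?_⟩
  · intro i
    refine ⟨hnn i, ?_⟩
    unfold yy
    split_ifs with h
    · have h1 : (1:ℝ) ≤ (x ⟨i, h⟩ : ℝ) := by exact_mod_cast hx ⟨i, h⟩
      rw [div_le_one (by linarith)]
      exact h1
    · norm_num
  · intro i hi
    unfold yy
    rw [dif_pos hi, dif_pos (by omega : i < n)]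
    have h1 : (0:ℝ) < (x ⟨i, by omega⟩ : ℝ) := by exact_mod_cast hx ⟨i, by omega⟩
    have h2 : (x ⟨i, by omega⟩ : ℝ) ≤ (x ⟨i+1, hi⟩ : ℝ) := by
      have hle : (⟨i, by omega⟩ : Fin n) ≤ (⟨i+1, hi⟩ : Fin n) := by
        rw [Fin.le_def]; exact Nat.le_succ i
      exact_mod_cast hmono hle
    exact one_div_le_one_div_of_le h1 h2
  · intro k hk1 hkn
    -- integrality
    have hint : ∀ j, j ≤ n → ∃ X s e : ℕ, 0 < X ∧ P (yy x) j * X = 1 ∧ S (yy x) j * X = s ∧
        E (yy x) j * X = e := by
      intro j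
      induction j with
      | zero => intro _; exact ⟨1, 0, 0, by norm_num, by simp [P_zero], by simp [S_zero], by simp [E_zero]⟩
      | succ j ih =>
        intro hj
        obtain ⟨X, s, e, hX, h1, h2, h3⟩ := ih (by omega)
        have hxj : yy x j * (x ⟨j, by omega⟩ : ℝ) = 1 := by
          unfold yy; rw [dif_pos (by omega : j < n)]
          have : (x ⟨j, by omega⟩ : ℝ) ≠ 0 := by exact_mod_cast (hx ⟨j, by omega⟩).ne'
          field_simp
        refine ⟨X * x ⟨j, by omega⟩, s * x ⟨j, by omega⟩ + X, e * x ⟨j, by omega⟩ + s,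
          Nat.mul_pos hX (hx _), ?_, ?_, ?_⟩
        · rw [P_succ]; push_cast
          calc P (yy x) j * yy x j * (X * (x ⟨j, by omega⟩ : ℝ))
              = (P (yy x) j * X) * (yy x j * (x ⟨j, by omega⟩ : ℝ)) := by ring
            _ = 1 := by rw [h1, hxj]; norm_num
        · rw [S_succ]; push_cast
          calc (S (yy x) j + yy x j) * (X * (x ⟨j, by omega⟩ : ℝ))
              = (S (yy x) j * X) * (x ⟨j, by omega⟩ : ℝ) + X * (yy x j * (x ⟨j, by omega⟩ : ℝ)) := by ring
            _ = _ := by rw [h2, hxj]; ring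
        · rw [E_succ]; push_cast
          calc (E (yy x) j + yy x j * S (yy x) j) * (X * (x ⟨j, by omega⟩ : ℝ))
              = (E (yy x) j * X) * (x ⟨j, by omega⟩ : ℝ)
                + (S (yy x) j * X) * (yy x j * (x ⟨j, by omega⟩ : ℝ)) := by ring
            _ = _ := by rw [h2, h3, hxj]; ring
    obtain ⟨X, s, e, hX, h1, h2, h3⟩ := hint k hkn.le
    have hXr : (0:ℝ) < X := by exact_mod_cast hX
    have hlt : E (yy x) k < 1 := by
      have h4 : E (yy x) (k+1) ≤ 1 := by
        have := hEm (show k+1 ≤ n by omega)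
        rwa [hEn] at this
      rw [E_succ] at h4
      have h5 : 0 < yy x k := hpos k hkn
      have h6 : 0 < S (yy x) k := by
        unfold S
        exact sum_pos (fun i hi => hpos i (by rw [mem_range] at hi; omega))
          ⟨0, by rw [mem_range]; omega⟩
      have := mul_pos h5 h6
      linarith
    have h7 : (e:ℝ) < X := by
      rw [← h3]
      calc E (yy x) k * X < 1 * X := mul_lt_mul_of_pos_right hlt hXr
        _ = X := one_mul _
    have h8 : e + 1 ≤ X := by exact_mod_cast h7
    have h9 : (e:ℝ) + 1 ≤ X := by exact_mod_cast h8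
    have h10 : (P (yy x) k + E (yy x) k) * X ≤ 1 * X := by
      rw [add_mul, h1, h3]; linarith
    exact le_of_mul_le_mul_right h10 hXr

lemma isV_rec (v : ℕ → ℝ) (hv : IsV v) (k : ℕ) :
    v (k+1) = 1 + P (fun i => v (i+1)) k * S (fun i => 1 / v (i+1)) k := by
  set w : ℕ → ℝ := fun i => v (i+1) with hw
  set u : ℕ → ℝ := fun i => 1 / v (i+1) with hu
  have hSum : ∀ m, ∑ i ∈ Icc 1 m, 1 / v i = S u m := by
    intro m
    induction m with
    | zero => simp [S]
    | succ m ih => rw [sum_Icc_succ_top (by omega), ih, S_succ]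
  have hE : ∀ m, ∑ j ∈ Icc 1 m, ∑ i ∈ Ico 1 j, 1 / (v i * v j) = E u m := by
    intro m
    induction m with
    | zero => simp [E, S, Q]
    | succ m ih =>
      rw [sum_Icc_succ_top (by omega), ih, E_succ]
      congr 1
      rw [← hSum m, mul_sum]
      refine sum_congr (by ext i; simp only [mem_Ico, mem_Icc]; omega) (fun i _ => ?_)
      simp only [hu]
      rw [one_div_mul_one_div, mul_comm]
  have main : ∀ m, (1 - E u m) * P w m = 1 ∧ (∀ i, i < m → 0 < w i) ∧ w m = 1 + P w m * S u m := by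
    intro m
    induction m with
    | zero =>
      refine ⟨by rw [E_zero, P_zero]; norm_num, by intro i hi; omega, ?_⟩
      rw [P_zero, S_zero]; simp only [hw]; rw [zero_add, hv.1]; norm_num
    | succ m ih =>
      obtain ⟨h1, h2, h3⟩ := ih
      have hwm : 0 < w m := by
        rw [h3]
        have hP : 0 < P w m := prod_pos (fun i hi => h2 i (mem_range.mp hi))
        have hS : 0 ≤ S u m := sum_nonneg (fun i hi => by
          have := h2 i (mem_range.mp hi)
          simp only [hw] at this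
          simp only [hu]; positivity)
        positivity
      have hpos : ∀ i, i < m+1 → 0 < w i := by
        intro i hi
        rcases Nat.lt_succ_iff_lt_or_eq.mp hi with h | h
        · exact h2 i h
        · rw [h]; exact hwm
      have huw : u m * w m = 1 := by
        simp only [hu, hw]
        have : v (m+1) ≠ 0 := hwm.ne'
        field_simp
      have hD : (1 - E u (m+1)) * P w (m+1) = 1 := by
        rw [E_succ, P_succ]
        calc (1 - (E u m + u m * S u m)) * (P w m * w m)
            = ((1 - E u m) * P w m) * w m - (u m * w m) * (P w m * S u m) := by ring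
          _ = w m - P w m * S u m := by rw [h1, huw]; ring
          _ = 1 := by rw [h3]; ring
      refine ⟨hD, hpos, ?_⟩
      rcases Nat.eq_zero_or_pos m with h0 | h0
      · subst h0
        rw [P_one, S_one]
        simp only [hw, hu]
        rw [show (0+1+1:ℕ) = 2 by rfl, hv.2.1, zero_add, hv.1]
        norm_num
      · have h4 := hv.2.2 (m+1) (by omega)
        rw [hSum (m+1), hE (m+1)] at h4
        change w (m+1) = _ at h4
        rw [h4]
        congr 1
        have hne : (1 - E u (m+1)) ≠ 0 := by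
          intro h; rw [h, zero_mul] at hD; norm_num at hD
        rw [div_eq_iff hne]
        calc S u (m+1) = S u (m+1) * ((1 - E u (m+1)) * P w (m+1)) := by rw [hD, mul_one]
          _ = P w (m+1) * S u (m+1) * (1 - E u (m+1)) := by ring
  exact (main k).2.2

/-- **Q1 is true.** For every `n ≥ 2` and all positive integers `x_1 ≤ ⋯ ≤ x_n` with
`σ_{n-2}(x) = σ_n(x)` one has `x_1 ⋯ x_n ≤ v_1 ⋯ v_{n-1} (v_n - 1)`. -/
theorem result : ∀ v : ℕ → ℝ, IsV v → ∀ n : ℕ, 2 ≤ n → ∀ x : Fin n → ℕ, (∀ i, 0 < x i) →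
    Monotone x → sigma (n - 2) x = sigma n x →
      (∏ i, (x i : ℝ)) ≤ (∏ i ∈ Icc 1 (n - 1), v i) * (v n - 1) := by
  intro v hv n hn x hx hmono hs
  have hprod : ∀ m, ∏ i ∈ Icc 1 m, v i = P (fun i => v (i+1)) m := by
    intro m
    induction m with
    | zero => simp [P]
    | succ m ih => rw [prod_Icc_succ_top (by omega), ih, P_succ]
  have hyW := yy_mem hn x hx hmono hs
  have hPy : P (yy x) n * ∏ i, (x i : ℝ) = 1 := by
    unfold P
    rw [prod_range, ← prod_mul_distrib]
    refine prod_eq_one (fun i _ => ?_)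
    unfold yy
    rw [dif_pos i.2]
    have : (x i : ℝ) ≠ 0 := by exact_mod_cast (hx i).ne'
    field_simp
  rcases Nat.lt_or_ge n 3 with hlt | hge
  · have hn2 : n = 2 := by omega
    subst hn2
    have h1 : sigma 2 x = ∏ i, x i := by
      unfold sigma
      have : powersetCard 2 (univ : Finset (Fin 2)) = {univ} := by
        have := powersetCard_self (univ : Finset (Fin 2))
        rwa [card_univ, Fintype.card_fin] at this
      rw [this, sum_singleton]
    have h2 : sigma (2-2) x = 1 := by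
      unfold sigma
      simp
    rw [h2, h1] at hs
    have h3 : (∏ i, (x i : ℝ)) = 1 := by exact_mod_cast hs.symm
    rw [h3, show 2 - 1 = 1 by rfl, Icc_self, prod_singleton, hv.1, hv.2.1]
    norm_num
  · obtain ⟨z, hz, hle, ht⟩ := exists_min hge hyW
    have hval := tight_val hge hz ht (fun i => v (i+1)) (fun k => isV_rec v hv k)
    have hvn : n - 1 + 1 = n := by omega
    rw [hvn, ← hprod] at hval
    have hXpos : (0:ℝ) < ∏ i, (x i : ℝ) := prod_pos (fun i _ => by exact_mod_cast hx i)
    have hPz : 0 < P z n := prod_pos (fun i hi => y_pos hz (mem_range.mp hi))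
    have h5 : P z n * (∏ i, (x i : ℝ)) ≤ P z n * ((∏ i ∈ Icc 1 (n - 1), v i) * (v n - 1)) := by
      rw [hval, ← hPy]
      exact mul_le_mul_of_nonneg_right hle hXpos.le
    exact le_of_mul_le_mul_left h5 hPz

end Pool.Agent.Results.MP_15ce38_nt.MaximalProduct
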